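import Mathlib

/-! Algebraic entropy of a group endomorphism, as in the problem file. -/

open Filter
open scoped Pointwise Classical

namespace Pool.Agent.P.MP_8d62fb_al.H82

variable {G : Type*} [Group G]

/-- `T_n(φ, F) = F · φ(F) ⋯ φ^{n-1}(F)` (and `T_0 = {1}`). -/
noncomputable def traj (φ : G →* G) (F : Finset G) : ℕ → Finset G
  | 0 => {1}
  | n + 1 => traj φ F n * F.image (φ^[n])

/-- `H_alg(φ, F) = limsup log |T_n(φ, F)| / n`. -/
noncomputable def HAlg (φ : G →* G) (F : Finset G) : EReal :=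
  limsup (fun n : ℕ => ((Real.log ((traj φ F n).card : ℝ) / (n : ℝ) : ℝ) : EReal)) atTop

/-- `h_alg(φ)`: the supremum of `H_alg(φ, F)` over the finite sets `F` containing `1`. -/
noncomputable def hAlg (φ : G →* G) : EReal :=
  ⨆ (F : Finset G) (_ : (1 : G) ∈ F), HAlg φ F

/-- The restriction of `φ` to a subgroup `H` with `φ(H) ≤ H`. -/
def restr (φ : G →* G) (H : Subgroup G) (h : H ≤ H.comap φ) : H →* H :=
  (φ.comp H.subtype).codRestrict H (fun x => h x.2)

theorem traj_nonempty (φ : G →* G) (F : Finset G) (h1 : (1 : G) ∈ F) (n : ℕ) :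
    (traj φ F n).Nonempty := by
  induction n with
  | zero => exact ⟨1, by simp [traj]⟩
  | succ n ih => exact ih.mul (Finset.Nonempty.image ⟨1, h1⟩ _)

theorem HAlg_le (φ : G →* G) (F : Finset G) (h1 : (1 : G) ∈ F) (C q : ℝ) (hq : 0 < q)
    (h : ∀ n, ((traj φ F n).card : ℝ) ≤ C * q ^ n) : HAlg φ F ≤ (Real.log q : ℝ) := by
  have hpos : ∀ n, (0 : ℝ) < (traj φ F n).card := fun n => by
    exact_mod_cast (traj_nonempty φ F h1 n).card_pos
  have hC : 0 < C := by
    have := (hpos 0).trans_le (h 0)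
    simpa using this
  have ht : Tendsto (fun n : ℕ => ((Real.log C / (n : ℝ) + Real.log q : ℝ) : EReal)) atTop
      (nhds ((Real.log q : ℝ) : EReal)) := by
    refine (continuous_coe_real_ereal.tendsto _).comp ?_
    have := (tendsto_const_div_atTop_nhds_zero_nat (Real.log C)).add_const (Real.log q)
    simpa using this
  rw [← ht.limsup_eq]
  refine limsup_le_limsup ?_
  filter_upwards [eventually_gt_atTop 0] with n hn
  have hn' : (0 : ℝ) < n := by exact_mod_cast hn
  refine EReal.coe_le_coe_iff.2 ?_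
  have h2 := Real.log_le_log (hpos n) (h n)
  rw [Real.log_mul hC.ne' (pow_pos hq n).ne', Real.log_pow] at h2
  rw [div_le_iff₀ hn', add_mul, div_mul_cancel₀ _ hn'.ne']
  linarith

theorem le_HAlg (φ : G →* G) (F : Finset G) (q : ℝ) (hq : 0 < q)
    (h : ∀ n, q ^ n ≤ ((traj φ F n).card : ℝ)) : ((Real.log q : ℝ) : EReal) ≤ HAlg φ F := by
  refine le_limsup_of_frequently_le (Eventually.frequently ?_)
  filter_upwards [eventually_gt_atTop 0] with n hn
  have hn' : (0 : ℝ) < n := by exact_mod_cast hn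
  refine EReal.coe_le_coe_iff.2 ?_
  have h2 := Real.log_le_log (pow_pos hq n) (h n)
  rw [Real.log_pow] at h2
  rw [le_div_iff₀ hn']
  linarith

theorem hAlg_nonneg (φ : G →* G) : 0 ≤ hAlg φ := by
  have h := le_HAlg φ {1} 1 one_pos (fun n => by
    rw [one_pow]
    exact_mod_cast (traj_nonempty φ {1} (by simp) n).card_pos)
  rw [Real.log_one] at h
  exact le_iSup₂_of_le (f := fun (F : Finset G) (_ : (1 : G) ∈ F) => HAlg φ F) {1} (by simp) h

/-- If every finite set lies in a finite invariant subgroup, the entropy is zero. -/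
theorem hAlg_eq_zero (φ : G →* G)
    (h : ∀ F : Finset G, ∃ K : Subgroup G, Finite K ∧ (∀ g ∈ F, g ∈ K) ∧ ∀ g ∈ K, φ g ∈ K) :
    hAlg φ = 0 := by
  refine le_antisymm (iSup₂_le fun F h1 => ?_) (hAlg_nonneg φ)
  obtain ⟨K, hK, hF, hφ⟩ := h F
  have hit : ∀ n, ∀ g ∈ K, φ^[n] g ∈ K := by
    intro n
    induction n with
    | zero => exact fun g hg => hg
    | succ n ih => exact fun g hg => by rw [Function.iterate_succ_apply']; exact hφ _ (ih g hg)
  have hT : ∀ n, ∀ g ∈ traj φ F n, g ∈ K := by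
    intro n
    induction n with
    | zero => intro g hg; simp [traj] at hg; rw [hg]; exact K.one_mem
    | succ n ih =>
      intro g hg
      obtain ⟨a, ha, b, hb, rfl⟩ := Finset.mem_mul.1 hg
      obtain ⟨c, hc, rfl⟩ := Finset.mem_image.1 hb
      exact K.mul_mem (ih a ha) (hit n c (hF c hc))
  have hfin : (K : Set G).Finite := Set.toFinite _
  have := HAlg_le φ F h1 (hfin.toFinset.card) 1 one_pos (fun n => by
    rw [one_pow, mul_one]
    exact_mod_cast Finset.card_le_card (fun g hg => hfin.mem_toFinset.2 (hT n g hg)))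
  simpa using this

end Pool.Agent.P.MP_8d62fb_al.H82
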