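import Pool.Agent.P.MP_8d62fb_al.H82.Grp

/-! The three entropies and local finiteness. -/

open scoped Pointwise Classical

namespace Pool.Agent.P.MP_8d62fb_al.H82

theorem mem_traj_succ {G : Type*} [Group G] (φ : G →* G) (F : Finset G) (n : ℕ) (g : G) :
    g ∈ traj φ F (n + 1) ↔ ∃ a ∈ traj φ F n, ∃ c ∈ F, a * φ^[n] c = g := by
  simp [traj, Finset.mem_mul]

variable (p : ℕ) [hp : Fact p.Prime]

theorem ent_H : hAlg (restr (phi p) (HH p) (HH_le p)) = 0 := by
  refine hAlg_eq_zero _ (fun S => ?_)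
  obtain ⟨J, hJ⟩ := exists_HJ p (S.image Subtype.val) (fun g hg => by
    obtain ⟨x, _, rfl⟩ := Finset.mem_image.1 hg
    exact x.2)
  refine ⟨(HJ p J).subgroupOf (HH p), ?_, fun g hg => hJ _ (Finset.mem_image_of_mem _ hg),
    fun g hg => phi_HJ p J _ hg⟩
  have := finite_HJ p J
  exact Finite.of_injective (fun g : (HJ p J).subgroupOf (HH p) => (⟨g.1.1, g.2⟩ : HJ p J))
    (fun g h e => Subtype.ext (Subtype.ext (congrArg (fun z : HJ p J => z.1) e)))

/-- `q` is the class of an element `1 + N(a) + finitary`. -/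
def RepQ (q : GG p ⧸ HH p) (a : ℤ →₀ ZMod p) : Prop :=
  ∃ g : GG p, (QuotientGroup.mk g : GG p ⧸ HH p) = q ∧ Rep g.1.val a

theorem repQ_ex (q : GG p ⧸ HH p) : ∃ a, RepQ p q a := by
  obtain ⟨g, rfl⟩ := QuotientGroup.mk_surjective q
  obtain ⟨a, ha⟩ := GG_rep p g
  exact ⟨a, g, rfl, ha⟩

theorem repQ_uniq {q q' : GG p ⧸ HH p} {a} (h : RepQ p q a) (h' : RepQ p q' a) : q = q' := by
  obtain ⟨g, rfl, hg⟩ := h
  obtain ⟨g', rfl, hg'⟩ := h'
  exact mk_eq_of_rep p g g' a hg hg'

theorem repQ_one : RepQ p 1 0 := ⟨1, rfl, rep_one⟩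

theorem repQ_mul {q q' : GG p ⧸ HH p} {a b} (h : RepQ p q a) (h' : RepQ p q' b) :
    RepQ p (q * q') (a + b) := by
  obtain ⟨g, rfl, hg⟩ := h
  obtain ⟨g', rfl, hg'⟩ := h'
  exact ⟨g * g', rfl, hg.mul hg'⟩

/-- The induced map on the quotient. -/
abbrev phiQ : GG p ⧸ HH p →* GG p ⧸ HH p := QuotientGroup.map (HH p) (HH p) (phi p) (HH_le p)

theorem repQ_phi {q : GG p ⧸ HH p} {a} (h : RepQ p q a) : RepQ p (phiQ p q) (sh a) := by
  obtain ⟨g, rfl, hg⟩ := h
  exact ⟨phi p g, rfl, hg.conj⟩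

/-- Classes with a representative supported in `[l, u)`. -/
def Win (l u : ℤ) : Set (GG p ⧸ HH p) := {q | ∃ a, RepQ p q a ∧ ∀ i ∈ a.support, l ≤ i ∧ i < u}

theorem win_mono {l u l' u' : ℤ} (h1 : l' ≤ l) (h2 : u ≤ u') : Win p l u ⊆ Win p l' u' := by
  rintro q ⟨a, ha, hs⟩
  exact ⟨a, ha, fun i hi => ⟨h1.trans (hs i hi).1, (hs i hi).2.trans_le h2⟩⟩

theorem win_one (l u : ℤ) : (1 : GG p ⧸ HH p) ∈ Win p l u := ⟨0, repQ_one p, by simp⟩

theorem win_mul {l u : ℤ} {q q'} (h : q ∈ Win p l u) (h' : q' ∈ Win p l u) :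
    q * q' ∈ Win p l u := by
  obtain ⟨a, ha, hs⟩ := h
  obtain ⟨b, hb, ht⟩ := h'
  refine ⟨a + b, repQ_mul p ha hb, fun i hi => ?_⟩
  rcases Finset.mem_union.1 (Finsupp.support_add hi) with h | h
  · exact hs i h
  · exact ht i h

theorem win_phi {l u : ℤ} {q} (h : q ∈ Win p l u) : phiQ p q ∈ Win p (l + 1) (u + 1) := by
  obtain ⟨a, ha, hs⟩ := h
  refine ⟨sh a, repQ_phi p ha, fun i hi => ?_⟩
  obtain ⟨k, hk, rfl⟩ := Finset.mem_image.1 (Finsupp.mapDomain_support hi)
  have := hs k hk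
  constructor <;> omega

theorem win_iter {l u : ℤ} {q} (h : q ∈ Win p l u) (n : ℕ) :
    (phiQ p)^[n] q ∈ Win p (l + n) (u + n) := by
  induction n with
  | zero => simpa using h
  | succ n ih =>
    rw [Function.iterate_succ_apply']
    have := win_phi p ih
    push_cast
    rwa [add_assoc, add_assoc] at this

theorem win_card {l u : ℤ} (S : Finset (GG p ⧸ HH p)) (h : ∀ q ∈ S, q ∈ Win p l u) :
    S.card ≤ p ^ (u - l).toNat := by
  choose! a ha hs using h
  have := Finset.card_le_card_of_injOn (s := S)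
    (t := (Finset.univ : Finset (Finset.Ico l u → ZMod p))) (fun q i => a q i.1)
    (fun _ _ => Finset.mem_coe.2 (Finset.mem_univ _)) (fun q hq q' hq' e => by
      have e2 : a q = a q' := by
        ext i
        by_cases hi : i ∈ Finset.Ico l u
        · exact congrFun e ⟨i, hi⟩
        · rw [Finset.mem_Ico] at hi
          rw [Finsupp.notMem_support_iff.1 (fun h => hi (hs q hq i h)),
            Finsupp.notMem_support_iff.1 (fun h => hi (hs q' hq' i h))]
      exact repQ_uniq p (ha q hq) (e2 ▸ ha q' hq'))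
  simpa using this

theorem win_finite (l u : ℤ) : (Win p l u).Finite := by
  by_contra h
  obtain ⟨S, hS, hc⟩ := Set.Infinite.exists_subset_card_eq h (p ^ (u - l).toNat + 1)
  have := win_card p S (fun q hq => hS hq)
  omega

theorem exists_win (S : Finset (GG p ⧸ HH p)) : ∃ M : ℕ, ∀ q ∈ S, q ∈ Win p (-M) M := by
  induction S using Finset.induction_on with
  | empty => exact ⟨0, by simp⟩
  | insert q S _ ih =>
    obtain ⟨M, hM⟩ := ih
    obtain ⟨a, ha⟩ := repQ_ex p q
    refine ⟨max M (a.support.sup Int.natAbs + 1), fun x hx => ?_⟩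
    rcases Finset.mem_insert.1 hx with rfl | hx
    · refine ⟨a, ha, fun i hi => ?_⟩
      have : i.natAbs ≤ a.support.sup Int.natAbs := Finset.le_sup (f := Int.natAbs) hi
      constructor <;> omega
    · exact win_mono p (by omega) (by omega) (hM x hx)

theorem ent_Q : hAlg (phiQ p) ≤ (Real.log p : ℝ) := by
  refine iSup₂_le fun S h1 => ?_
  obtain ⟨M, hM⟩ := exists_win p S
  have hT : ∀ n : ℕ, ∀ q ∈ traj (phiQ p) S n, q ∈ Win p (-M) (M + n) := by
    intro n
    induction n with
    | zero => intro q hq; simp [traj] at hq; rw [hq]; exact win_one p _ _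
    | succ n ih =>
      intro q hq
      obtain ⟨a, ha, c, hc, rfl⟩ := (mem_traj_succ _ _ _ _).1 hq
      exact win_mul p (win_mono p le_rfl (by push_cast; omega) (ih a ha))
        (win_mono p (by omega) (by push_cast; omega) (win_iter p (hM c hc) n))
  refine HAlg_le _ S h1 ((p : ℝ) ^ (2 * M)) p (by exact_mod_cast hp.out.pos) (fun n => ?_)
  have := win_card p _ (hT n)
  rw [show ((M : ℤ) + n - -M).toNat = 2 * M + n by omega] at this
  rw [← pow_add]
  exact_mod_cast this

theorem locFin (S : Finset (GG p)) : Finite (Subgroup.closure (S : Set (GG p))) := by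
  set K := Subgroup.closure (S : Set (GG p)) with hK
  have : Group.FG K := Group.closure_finset_fg S
  let π : K →* GG p ⧸ HH p := (QuotientGroup.mk' (HH p)).comp K.subtype
  obtain ⟨M, hM⟩ := exists_win p (S.image (QuotientGroup.mk' (HH p)))
  let W : Subgroup (GG p) := mkSub
    { carrier := {g | QuotientGroup.mk' (HH p) g ∈ Win p (-M) M}
      one_mem' := win_one p _ _
      mul_mem' := fun h1 h2 => win_mul p h1 h2 } (fun g _ => GG_tors p g)
  have hW : K ≤ W := (Subgroup.closure_le _).2 (fun g hg => hM _ (Finset.mem_image_of_mem _ hg))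
  have hr : Finite π.range := by
    refine Set.Finite.to_subtype (s := (π.range : Set _)) ((win_finite p (-M) M).subset ?_)
    rintro _ ⟨g, rfl⟩
    exact hW g.2
  have hfg : Group.FG π.ker := Subgroup.fg_of_index_ne_zero _
  obtain ⟨T, hT⟩ := hfg.out
  obtain ⟨J, hJ⟩ := exists_HJ p (T.image (fun x => x.1.1)) (fun g hg => by
    obtain ⟨x, _, rfl⟩ := Finset.mem_image.1 hg
    exact (QuotientGroup.eq_one_iff _).1 x.2)
  have hall : ∀ x : π.ker, x.1.1 ∈ HJ p J := by
    intro x
    have : Subgroup.closure (T : Set π.ker) ≤ (HJ p J).comap (K.subtype.comp π.ker.subtype) :=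
      (Subgroup.closure_le _).2 (fun y hy => hJ _ (Finset.mem_image_of_mem _ hy))
    exact this (hT ▸ Subgroup.mem_top x)
  have := finite_HJ p J
  have hk : Finite π.ker := Finite.of_injective (fun x : π.ker => (⟨x.1.1, hall x⟩ : HJ p J))
    (fun g h e => Subtype.ext (Subtype.ext (congrArg (fun z : HJ p J => z.1) e)))
  exact π.finite_iff_finite_ker_range.2 ⟨hk, hr⟩

theorem countable_GG : Countable (GG p) := by
  have h1 : Countable (GG p ⧸ HH p) := by
    rw [← Set.countable_univ_iff]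
    refine (Set.countable_iUnion (fun M : ℕ => (win_finite p (-M) M).countable)).mono ?_
    intro q _
    obtain ⟨M, hM⟩ := exists_win p {q}
    exact Set.mem_iUnion.2 ⟨M, hM q (by simp)⟩
  have h2 : Countable (HH p) := by
    refine Set.Countable.to_subtype (s := (HH p : Set (GG p))) ?_
    refine (Set.countable_iUnion (fun J : ℕ => ?_ : ∀ J, (HJ p J : Set (GG p)).Countable)).mono ?_
    · have := finite_HJ p J
      exact (Set.toFinite _).countable
    · rintro g ⟨J, hJ⟩
      exact Set.mem_iUnion.2 ⟨J, hJ⟩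
  exact Countable.of_equiv _ (Subgroup.groupEquivQuotientProdSubgroup (s := HH p)).symm

/-- The element `1 + x`. -/
noncomputable def mkG (x : E (ZMod p)) (h : Raise x) (a : ℤ →₀ ZMod p) (ha : Rep (1 + x) a) :
    GG p :=
  ⟨(IsNilpotent.isUnit_one_add (r := x) (by
      simpa using nilp (g := 1 + x) (by simpa using h) ha)).unit, by simpa using h, a, ha⟩

theorem mkG_val (x h a ha) : (mkG p x h a ha).1.val = 1 + x := rfl

noncomputable def gen {k : ℕ} (c : Fin k → ZMod p) : GG p :=
  mkG p (eps c) (raise_eps c) 0 ⟨k, by simpa using finJ_eps c⟩ *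
    mkG p (N _ 0) (raise_N 0) (Finsupp.single 0 1) ⟨0, by simpa [NA_single] using FinJ.zero 0⟩

theorem gen_val {k : ℕ} (c : Fin k → ZMod p) : (gen p c).1.val = (1 + eps c) * (1 + N _ 0) := rfl

theorem phi_iter (g : GG p) (n : ℕ) :
    ((phi p)^[n] g).1 = tU (ZMod p) ^ n * g.1 * (tU (ZMod p) ^ n)⁻¹ := by
  induction n with
  | zero => simp
  | succ n ih =>
    rw [Function.iterate_succ_apply', phi_coe, ih]
    group

noncomputable def Pp {k : ℕ} (c : ℕ → Fin k → ZMod p) : ℕ → GG p
  | 0 => 1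
  | n + 1 => Pp c n * (phi p)^[n] (gen p (c n))

theorem Pp_val {k : ℕ} (c : ℕ → Fin k → ZMod p) (n : ℕ) :
    ((Pp p c n).1 * tU (ZMod p) ^ n).val = Qp c n := by
  induction n with
  | zero => simp [Pp, Qp]
  | succ n ih =>
    have : (Pp p c (n + 1)).1 * tU (ZMod p) ^ (n + 1) =
        ((Pp p c n).1 * tU (ZMod p) ^ n) * ((gen p (c n)).1 * tU (ZMod p)) := by
      rw [Pp, Subgroup.coe_mul, phi_iter]
      group
    rw [this, Units.val_mul, ih, Units.val_mul, gen_val, Qp, mul_assoc]
    rfl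

theorem ent_G : hAlg (phi p) = ⊤ := by
  have key : ∀ k : ℕ, ((Real.log ((p : ℝ) ^ k) : ℝ) : EReal) ≤ hAlg (phi p) := by
    intro k
    let S : Finset (GG p) := insert 1 (Finset.univ.image (gen p (k := k)))
    refine le_iSup₂_of_le (f := fun (F : Finset (GG p)) (_ : (1 : GG p) ∈ F) => HAlg (phi p) F)
      S (Finset.mem_insert_self _ _) ?_
    refine le_HAlg _ S _ (pow_pos (by exact_mod_cast hp.out.pos) k) (fun n => ?_)
    have hmem : ∀ (c : ℕ → Fin k → ZMod p) (n : ℕ), Pp p c n ∈ traj (phi p) S n := by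
      intro c n
      induction n with
      | zero => simp [Pp, traj]
      | succ n ih =>
        exact (mem_traj_succ _ _ _ _).2 ⟨_, ih, _,
          Finset.mem_insert_of_mem (Finset.mem_image_of_mem _ (Finset.mem_univ _)), rfl⟩
    let ext : (Fin n → Fin k → ZMod p) → ℕ → Fin k → ZMod p :=
      fun c i => if h : i < n then c ⟨i, h⟩ else 0
    have := Finset.card_le_card_of_injOn (s := (Finset.univ : Finset (Fin n → Fin k → ZMod p)))
      (t := traj (phi p) S n) (fun c => Pp p (ext c) n) (fun c _ => hmem _ n)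
      (fun c _ c' _ e => by
        have h1 : Qp (ext c) n = Qp (ext c') n := by
          rw [← Pp_val, ← Pp_val]
          exact congrArg (fun g : GG p => (g.1 * tU (ZMod p) ^ n).val) e
        funext i
        simpa [ext] using Qp_inj _ _ n h1 i i.2)
    simp only [Finset.card_univ, Fintype.card_fun, ZMod.card, Fintype.card_fin] at this
    exact_mod_cast this
  refine EReal.eq_top_iff_forall_lt _ |>.2 (fun y => ?_)
  have hl : 0 < Real.log p := Real.log_pos (by exact_mod_cast hp.out.one_lt)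
  obtain ⟨k, hk⟩ := exists_nat_gt (y / Real.log p)
  refine lt_of_lt_of_le ?_ (key k)
  rw [Real.log_pow]
  exact EReal.coe_lt_coe_iff.2 ((div_lt_iff₀ hl).1 hk)

end Pool.Agent.P.MP_8d62fb_al.H82
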