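import Pool.Agent.P.MP_8d62fb_al.H82.Orbit

/-! The group `G = 1 + {N(a) + finitary}`, its finitary subgroup `H` and the automorphism. -/

namespace Pool.Agent.P.MP_8d62fb_al.H82

/-- A submonoid of elements of finite order is a subgroup. -/
def mkSub {Γ : Type*} [Group Γ] (S : Submonoid Γ) (h : ∀ g ∈ S, ∃ n, 0 < n ∧ g ^ n = 1) :
    Subgroup Γ :=
  { S with
    inv_mem' := fun {g} hg => by
      obtain ⟨n, hn, e⟩ := h g hg
      have : g⁻¹ = g ^ (n - 1) := by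
        rw [inv_eq_iff_mul_eq_one, ← pow_succ', Nat.sub_add_cancel hn, e]
      rw [this]
      exact S.pow_mem hg _ }

section
variable {A : Type*} [Ring A]

theorem r1 (g x n : A) : g * x = (g - 1 - n) * x + (x + n * x) := by noncomm_ring
theorem r2 (g x n : A) : x * g = x * (g - 1 - n) + (x + x * n) := by noncomm_ring
theorem r3 (g h n m : A) : g * h - 1 - (n + m) = (g - 1 - n) * h + ((h - 1 - m) +
    (n * (h - 1 - m) + n * m)) := by noncomm_ring
theorem r4 (g n : A) : (g - 1) * (g - 1) = (g - 1 - n) * g + (-(g - 1 - n) +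
    (n * (g - 1 - n) + n * n)) := by noncomm_ring
theorem r5 (g h : A) : g * h - 1 = (g - 1) + ((h - 1) + (g - 1) * (h - 1)) := by noncomm_ring

end

section
variable {F : Type} [Field F]

/-- `g = 1 + N(a) + finitary`. -/
def Rep (g : E F) (a : ℤ →₀ F) : Prop := ∃ J, FinJ J (g - 1 - NA F a)

theorem FinJ.neg {J : ℕ} {x : E F} (hx : FinJ J x) : FinJ J (-x) :=
  ⟨fun v hv => by simp [hx.1 v hv], fun v z hz => by simp [hx.2 v z hz]⟩

theorem ex_add {x y : E F} (hx : ∃ J, FinJ J x) (hy : ∃ J, FinJ J y) : ∃ J, FinJ J (x + y) := by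
  obtain ⟨J, h⟩ := hx
  obtain ⟨J', h'⟩ := hy
  exact ⟨max J J', (h.mono (le_max_left _ _)).add (h'.mono (le_max_right _ _))⟩

theorem ex_mul {x y : E F} (hx : ∃ J, FinJ J x) (hy : ∃ J, FinJ J y) : ∃ J, FinJ J (x * y) := by
  obtain ⟨J, h⟩ := hx
  obtain ⟨J', h'⟩ := hy
  exact ⟨max J J', (h.mono (le_max_left _ _)).mul (h'.mono (le_max_right _ _))⟩

theorem Rep.mul_fin {g x : E F} {a : ℤ →₀ F} (hg : Rep g a) (hx : ∃ J, FinJ J x) :
    ∃ J, FinJ J (g * x) := by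
  have e : g * x = (g - 1 - NA F a) * x + (x + NA F a * x) := r1 _ _ _
  rw [e]
  refine ex_add (ex_mul hg hx) (ex_add hx ?_)
  obtain ⟨J, h⟩ := hx
  exact ⟨_, h.loc_mul (loc_NA a)⟩

theorem Rep.fin_mul {g x : E F} {a : ℤ →₀ F} (hg : Rep g a) (hx : ∃ J, FinJ J x) :
    ∃ J, FinJ J (x * g) := by
  have e : x * g = x * (g - 1 - NA F a) + (x + x * NA F a) := r2 _ _ _
  rw [e]
  refine ex_add (ex_mul hx hg) (ex_add hx ?_)
  obtain ⟨J, h⟩ := hx
  exact ⟨_, h.mul_loc (loc_NA a)⟩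

theorem Rep.mul {g h : E F} {a b : ℤ →₀ F} (hg : Rep g a) (hh : Rep h b) : Rep (g * h) (a + b) := by
  have e : g * h - 1 - NA F (a + b) = (g - 1 - NA F a) * h + ((h - 1 - NA F b) +
      (NA F a * (h - 1 - NA F b) + NA F a * NA F b)) := by
    rw [map_add]; exact r3 _ _ _ _
  unfold Rep
  rw [e]
  refine ex_add (hh.fin_mul hg) (ex_add hh (ex_add ?_ (fin_NA_mul a b)))
  obtain ⟨J, h⟩ := hh
  exact ⟨_, h.loc_mul (loc_NA a)⟩

theorem rep_one : Rep (1 : E F) 0 := ⟨0, by simpa using FinJ.zero 0⟩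

theorem R_neg_mul (k : ℤ) : R F (-k) * R F k = 1 := by simpa using R_mul_neg F (-k)

theorem Rep.conj {g : E F} {a : ℤ →₀ F} (hg : Rep g a) : Rep (R F 1 * g * R F (-1)) (sh a) := by
  obtain ⟨J, h⟩ := hg
  refine ⟨J, ?_⟩
  have := h.conj 1 (-1)
  rwa [mul_sub, mul_sub, sub_mul, sub_mul, conj_NA, mul_one, R_mul_neg] at this

theorem Rep.conj' {g : E F} {a : ℤ →₀ F} (hg : Rep g a) :
    ∃ b, Rep (R F (-1) * g * R F 1) b := by
  obtain ⟨J, h⟩ := hg
  refine ⟨Finsupp.mapDomain (· - 1) a, J, ?_⟩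
  have h1 : sh (Finsupp.mapDomain (· - 1) a) = a := by
    rw [sh, ← Finsupp.mapDomain_comp]
    have : ((fun x : ℤ => x + 1) ∘ fun x => x - 1) = id := by funext x; simp
    rw [this, Finsupp.mapDomain_id]
  have h2 : R F (-1) * NA F a * R F 1 = NA F (Finsupp.mapDomain (· - 1) a) := by
    conv_lhs => rw [← h1, ← conj_NA]
    rw [← mul_assoc, ← mul_assoc, R_neg_mul, one_mul, mul_assoc, R_neg_mul, mul_one]
  have := h.conj (-1) 1
  rwa [mul_sub, mul_sub, sub_mul, sub_mul, h2, mul_one, R_neg_mul] at this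

theorem nilp {g : E F} {a : ℤ →₀ F} (hr : Raise (g - 1)) (hg : Rep g a) : IsNilpotent (g - 1) := by
  have e : (g - 1) * (g - 1) = (g - 1 - NA F a) * g + (-(g - 1 - NA F a) +
      (NA F a * (g - 1 - NA F a) + NA F a * NA F a)) := r4 _ _
  have : ∃ J, FinJ J ((g - 1) * (g - 1)) := by
    rw [e]
    refine ex_add (hg.fin_mul hg) (ex_add ?_ (ex_add ?_ (fin_NA_mul a a)))
    · obtain ⟨J, h⟩ := hg; exact ⟨J, h.neg⟩
    · obtain ⟨J, h⟩ := hg; exact ⟨_, h.loc_mul (loc_NA a)⟩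
  obtain ⟨J, h⟩ := this
  refine ⟨2 + (J + 2), LinearMap.ext fun v => ?_⟩
  rw [pow_add, pow_two, Module.End.mul_apply]
  exact h.1 _ (fun y hy => hr.pow _ v y (by have := level_le y; omega))

end

variable (p : ℕ) [hp : Fact p.Prime]

theorem pow_eq_one_of {g : E (ZMod p)} (h : IsNilpotent (g - 1)) : ∃ k, g ^ p ^ k = 1 := by
  obtain ⟨n, hn⟩ := h
  have : Nontrivial (E (ZMod p)) := ⟨⟨1, 0, fun h => by
    have := congrFun (LinearMap.congr_fun h (fun _ => 1)) x0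
    simp at this⟩⟩
  have : CharP (E (ZMod p)) p :=
    charP_of_injective_algebraMap (algebraMap (ZMod p) (E (ZMod p))).injective p
  refine ⟨n, ?_⟩
  have e : g = 1 + (g - 1) := by abel
  rw [e, add_pow_char_pow_of_commute _ _ (Commute.one_left _), one_pow,
    pow_eq_zero_of_le (Nat.lt_pow_self hp.out.one_lt).le hn, add_zero]

def GM : Submonoid (E (ZMod p))ˣ where
  carrier := {g | Raise (g.val - 1) ∧ ∃ a, Rep g.val a}
  one_mem' := ⟨by simpa using Raise.zero, 0, rep_one⟩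
  mul_mem' := by
    rintro g h ⟨h1, a, ha⟩ ⟨h2, b, hb⟩
    refine ⟨?_, a + b, ha.mul hb⟩
    have e : (g * h).val - 1 = (g.val - 1) + ((h.val - 1) + (g.val - 1) * (h.val - 1)) := by
      rw [Units.val_mul]; exact r5 _ _
    rw [e]
    exact h1.add (h2.add (h1.mul h2))

theorem GM_pow (g : (E (ZMod p))ˣ) (hg : g ∈ GM p) : ∃ k, g ^ p ^ k = 1 := by
  obtain ⟨h1, a, ha⟩ := hg
  obtain ⟨k, hk⟩ := pow_eq_one_of p (nilp h1 ha)
  exact ⟨k, Units.ext (by simpa using hk)⟩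

/-- The group `G`. -/
def GG : Subgroup (E (ZMod p))ˣ := mkSub (GM p) (fun g hg => by
  obtain ⟨k, hk⟩ := GM_pow p g hg
  exact ⟨p ^ k, pow_pos hp.out.pos k, hk⟩)

theorem isPGroup_GG : IsPGroup p (GG p) := by
  intro g
  obtain ⟨k, hk⟩ := GM_pow p g.1 g.2
  exact ⟨k, Subtype.ext hk⟩

theorem GG_tors (g : GG p) : ∃ n, 0 < n ∧ g ^ n = 1 := by
  obtain ⟨k, hk⟩ := isPGroup_GG p g
  exact ⟨p ^ k, pow_pos hp.out.pos k, hk⟩

theorem GG_rep (g : GG p) : ∃ a, Rep g.1.val a := g.2.2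

/-- Finitary elements with support bounded by `J`. -/
def HJ (J : ℕ) : Subgroup (GG p) := mkSub
  { carrier := {g | FinJ J (g.1.val - 1)}
    one_mem' := by simpa using FinJ.zero J
    mul_mem' := by
      intro g h h1 h2
      have e : (g * h).1.val - 1 =
          (g.1.val - 1) + ((h.1.val - 1) + (g.1.val - 1) * (h.1.val - 1)) := by
        rw [Subgroup.coe_mul, Units.val_mul]; exact r5 _ _
      show FinJ J _
      rw [e]
      exact FinJ.add h1 (FinJ.add h2 (FinJ.mul h1 h2)) } (fun g _ => GG_tors p g)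

theorem mem_HJ (J : ℕ) (g : GG p) : g ∈ HJ p J ↔ FinJ J (g.1.val - 1) := Iff.rfl

theorem finite_HJ (J : ℕ) : Finite (HJ p J) := by
  have : Finite {x : E (ZMod p) | FinJ J x} := (finite_finJ J).to_subtype
  refine Finite.of_injective
    (fun g : HJ p J => (⟨g.1.1.val - 1, g.2⟩ : {x : E (ZMod p) | FinJ J x})) ?_
  intro g h e
  have := sub_left_injective (congrArg Subtype.val e)
  exact Subtype.ext (Subtype.ext (Units.ext this))

/-- The finitary subgroup `H`. -/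
def HH : Subgroup (GG p) where
  carrier := {g | ∃ J, g ∈ HJ p J}
  one_mem' := ⟨0, Subgroup.one_mem _⟩
  mul_mem' := by
    rintro g h ⟨J, h1⟩ ⟨J', h2⟩
    exact ⟨max J J', Subgroup.mul_mem _ (FinJ.mono h1 (le_max_left _ _))
      (FinJ.mono h2 (le_max_right _ _))⟩
  inv_mem' := by
    rintro g ⟨J, h⟩
    exact ⟨J, Subgroup.inv_mem _ h⟩

theorem mem_HH (g : GG p) : g ∈ HH p ↔ ∃ J, FinJ J (g.1.val - 1) := Iff.rfl

instance normal_HH : (HH p).Normal := by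
  refine ⟨fun g hg k => ?_⟩
  rw [mem_HH] at hg ⊢
  obtain ⟨a, ha⟩ := GG_rep p k
  obtain ⟨b, hb⟩ := GG_rep p k⁻¹
  have e : (k * g * k⁻¹).1.val - 1 = k.1.val * (g.1.val - 1) * (k⁻¹).1.val := by
    simp [mul_sub, sub_mul]
  rw [e]
  exact hb.fin_mul (ha.mul_fin hg)

theorem exists_HJ (S : Finset (GG p)) (h : ∀ g ∈ S, g ∈ HH p) : ∃ J, ∀ g ∈ S, g ∈ HJ p J := by
  classical
  induction S using Finset.induction_on with
  | empty => exact ⟨0, by simp⟩
  | insert g S _ ih =>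
    obtain ⟨J, hJ⟩ := ih (fun x hx => h x (Finset.mem_insert_of_mem hx))
    obtain ⟨J', hJ'⟩ := h g (Finset.mem_insert_self _ _)
    refine ⟨max J J', fun x hx => ?_⟩
    rcases Finset.mem_insert.1 hx with rfl | hx
    · exact FinJ.mono hJ' (le_max_right _ _)
    · exact FinJ.mono (hJ x hx) (le_max_left _ _)

theorem conj_sub_one (g : E (ZMod p)) (k : ℤ) :
    R (ZMod p) k * g * R (ZMod p) (-k) - 1 = R (ZMod p) k * (g - 1) * R (ZMod p) (-k) := by
  rw [mul_sub, sub_mul, mul_one, R_mul_neg]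

/-- Conjugation by the rotation. -/
def phi : GG p →* GG p :=
  ((MulAut.conj (tU (ZMod p))).toMonoidHom.comp (GG p).subtype).codRestrict (GG p) (by
    rintro ⟨g, h1, a, ha⟩
    refine ⟨?_, sh a, ha.conj⟩
    show Raise (R (ZMod p) 1 * g.val * R (ZMod p) (-1) - 1)
    rw [conj_sub_one]
    exact h1.conj _ _)

theorem phi_val (g : GG p) : (phi p g).1.val = R (ZMod p) 1 * g.1.val * R (ZMod p) (-1) := rfl

theorem phi_coe (g : GG p) : (phi p g).1 = tU (ZMod p) * g.1 * (tU (ZMod p))⁻¹ := rfl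

theorem phi_inj : Function.Injective (phi p) := by
  intro g h e
  have := congrArg Subtype.val e
  rw [phi_coe, phi_coe] at this
  exact Subtype.ext (by simpa using this)

theorem phi_pre (g : GG p) : ∃ g' : GG p, phi p g' = g ∧
    g'.1.val = R (ZMod p) (-1) * g.1.val * R (ZMod p) 1 := by
  obtain ⟨g, h1, a, ha⟩ := g
  refine ⟨⟨(tU (ZMod p))⁻¹ * g * tU (ZMod p), ?_, ha.conj'⟩, Subtype.ext ?_, rfl⟩
  · show Raise (R (ZMod p) (-1) * g.val * R (ZMod p) (- -1) - 1)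
    rw [conj_sub_one]
    exact h1.conj _ _
  · rw [phi_coe]
    simp [mul_assoc]

theorem phi_HJ (J : ℕ) (g : GG p) (hg : g ∈ HJ p J) : phi p g ∈ HJ p J := by
  rw [mem_HJ, phi_val, conj_sub_one]
  exact FinJ.conj hg _ _

theorem HH_le : HH p ≤ (HH p).comap (phi p) := by
  rintro g ⟨J, h⟩
  exact ⟨J, phi_HJ p J g h⟩

theorem map_HH : (HH p).map (phi p) = HH p := by
  refine le_antisymm (Subgroup.map_le_iff_le_comap.2 (HH_le p)) ?_
  rintro g ⟨J, h⟩
  obtain ⟨g', e, hv⟩ := phi_pre p g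
  refine ⟨g', ⟨J, ?_⟩, e⟩
  rw [mem_HJ, hv]
  show FinJ J (R (ZMod p) (-1) * g.1.val * R (ZMod p) (- -1) - 1)
  rw [conj_sub_one]
  exact FinJ.conj h _ _

theorem mk_eq_of_rep (g h : GG p) (a : ℤ →₀ ZMod p) (hg : Rep g.1.val a) (hh : Rep h.1.val a) :
    (QuotientGroup.mk g : GG p ⧸ HH p) = QuotientGroup.mk h := by
  rw [QuotientGroup.eq, mem_HH]
  obtain ⟨b, hb⟩ := GG_rep p g⁻¹
  have e : (g⁻¹ * h).1.val - 1 = (g⁻¹).1.val *
      ((h.1.val - 1 - NA _ a) + -(g.1.val - 1 - NA _ a)) := by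
    have : (h.1.val - 1 - NA _ a) + -(g.1.val - 1 - NA _ a) = h.1.val - g.1.val := by abel
    rw [this]
    simp [mul_sub]
  rw [e]
  refine hb.mul_fin (ex_add hh ?_)
  obtain ⟨J, h⟩ := hg
  exact ⟨J, h.neg⟩

end Pool.Agent.P.MP_8d62fb_al.H82
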