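import Pool.Agent.P.MP_8d62fb_al.H82.Defs

/-! The ladder of cycles and the operators on it. -/

namespace Pool.Agent.P.MP_8d62fb_al.H82

/-- Base points `inl m` and cycles of length `2 j + 2`. -/
abbrev X : Type := ℕ ⊕ (Σ j : ℕ, ZMod (2 * j + 2))

def size : X → ℕ
  | .inl m => m
  | .inr ⟨j, _⟩ => j

def level : X → ℕ
  | .inl _ => 0
  | .inr ⟨j, _⟩ => j + 1

theorem level_le (x : X) : level x ≤ size x + 1 := by
  rcases x with m | ⟨j, c⟩ <;> simp [level, size]

theorem finite_size (J : ℕ) : {x : X | size x ≤ J}.Finite := by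
  have h1 : (Sum.inl '' {m : ℕ | m ≤ J} : Set X).Finite := (Set.finite_le_nat J).image _
  have h2 : (⋃ j ∈ {m : ℕ | m ≤ J},
      Set.range (fun c : ZMod (2 * j + 2) => (Sum.inr ⟨j, c⟩ : X))).Finite :=
    (Set.finite_le_nat J).biUnion (fun j _ => Set.finite_range _)
  refine (h1.union h2).subset ?_
  rintro (m | ⟨j, c⟩) hx
  · exact Or.inl ⟨m, hx, rfl⟩
  · exact Or.inr (Set.mem_biUnion (x := j) hx ⟨c, rfl⟩)

/-- Rotation of all cycles by `k`. -/
def rot (k : ℤ) : X → X
  | .inl m => .inl m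
  | .inr ⟨j, c⟩ => .inr ⟨j, c + (k : ZMod (2 * j + 2))⟩

theorem rot_rot (k l : ℤ) (x : X) : rot k (rot l x) = rot (l + k) x := by
  rcases x with m | ⟨j, c⟩ <;> simp [rot, add_assoc]

theorem rot_zero (x : X) : rot 0 x = x := by
  rcases x with m | ⟨j, c⟩ <;> simp [rot]

theorem size_rot (k : ℤ) (x : X) : size (rot k x) = size x := by
  rcases x with m | ⟨j, c⟩ <;> rfl

theorem level_rot (k : ℤ) (x : X) : level (rot k x) = level x := by
  rcases x with m | ⟨j, c⟩ <;> rfl

variable (F : Type) [Field F]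

abbrev E : Type := Module.End F (X → F)

/-- `(R k v) x = v (x - k)`. -/
def R (k : ℤ) : E F := LinearMap.funLeft F F (rot (-k))

theorem R_apply (k : ℤ) (v : X → F) (x : X) : R F k v x = v (rot (-k) x) := rfl

theorem R_mul_neg (k : ℤ) : R F k * R F (-k) = 1 := by
  ext v x
  simp [R_apply, rot_rot, rot_zero]

/-- The rotation by one step, as a unit. -/
def tU : (E F)ˣ := ⟨R F 1, R F (-1), R_mul_neg F 1, by simpa using R_mul_neg F (-1)⟩

def Nfun (i : ℤ) (v : X → F) : X → F
  | .inl _ => 0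
  | .inr ⟨0, _⟩ => 0
  | .inr ⟨j + 1, c⟩ =>
      if c = (i : ZMod (2 * (j + 1) + 2)) then v (.inr ⟨j, ((j + 1 + i : ℤ) : ZMod (2 * j + 2))⟩)
      else 0

/-- The rungs: the point `j + 1 + i` of cycle `j` is sent to the point `i` of cycle `j + 1`. -/
def N (i : ℤ) : E F where
  toFun := Nfun F i
  map_add' v w := by
    funext x
    rcases x with m | ⟨_ | j, c⟩
    · simp [Nfun]
    · simp [Nfun]
    · simp only [Nfun, Pi.add_apply]; split_ifs <;> simp
  map_smul' r v := by
    funext x
    rcases x with m | ⟨_ | j, c⟩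
    · simp [Nfun]
    · simp [Nfun]
    · simp only [Nfun, Pi.smul_apply, RingHom.id_apply]; split_ifs <;> simp

theorem N_inl (i : ℤ) (v : X → F) (m : ℕ) : N F i v (.inl m) = 0 := rfl
theorem N_zero (i : ℤ) (v : X → F) (c) : N F i v (.inr ⟨0, c⟩) = 0 := rfl
theorem N_succ (i : ℤ) (v : X → F) (j : ℕ) (c) : N F i v (.inr ⟨j + 1, c⟩) =
    if c = (i : ZMod (2 * (j + 1) + 2)) then v (.inr ⟨j, ((j + 1 + i : ℤ) : ZMod (2 * j + 2))⟩)
      else 0 := rfl

theorem conj_N (i : ℤ) : R F 1 * N F i * R F (-1) = N F (i + 1) := by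
  ext v x
  rcases x with m | ⟨_ | j, c⟩
  · rfl
  · rfl
  · simp only [Module.End.mul_apply, R_apply, rot, N_succ]
    have e : (c + ((-1 : ℤ) : ZMod (2 * (j + 1) + 2)) = (i : ZMod (2 * (j + 1) + 2))) ↔
        c = ((i + 1 : ℤ) : ZMod (2 * (j + 1) + 2)) := by
      push_cast
      constructor
      · intro h; rw [← h]; ring
      · intro h; rw [h]; ring
    simp only [e]
    split_ifs
    · congr 3
      push_cast
      ring
    · rfl

variable {F}

/-- `x` raises the level strictly. -/
def Raise (x : E F) : Prop :=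
  ∀ (l : ℕ) (v : X → F), (∀ y, level y < l → v y = 0) → ∀ y, level y ≤ l → x v y = 0

/-- `x` only reads and only writes points of size at most `J`. -/
def FinJ (J : ℕ) (x : E F) : Prop :=
  (∀ v : X → F, (∀ y, size y ≤ J → v y = 0) → x v = 0) ∧ ∀ v y, J < size y → x v y = 0

/-- `x` does not lower the size and raises it by at most one. -/
def Loc (x : E F) : Prop :=
  ∀ J : ℕ, (∀ v : X → F, (∀ y, size y ≤ J → v y = 0) → ∀ y, size y ≤ J → x v y = 0) ∧
    ∀ v : X → F, (∀ y, J < size y → v y = 0) → ∀ y, J + 1 < size y → x v y = 0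

theorem Raise.zero : Raise (0 : E F) := fun _ _ _ _ _ => rfl

theorem Raise.add {x y : E F} (hx : Raise x) (hy : Raise y) : Raise (x + y) := by
  intro l v hv z hz
  simp [hx l v hv z hz, hy l v hv z hz]

theorem Raise.smul {x : E F} (r : F) (hx : Raise x) : Raise (r • x) := by
  intro l v hv z hz
  simp [hx l v hv z hz]

theorem Raise.mul {x y : E F} (hx : Raise x) (hy : Raise y) : Raise (x * y) := by
  intro l v hv z hz
  exact hx l (y v) (fun w hw => hy l v hv w hw.le) z hz

theorem Raise.pow {x : E F} (hx : Raise x) (k : ℕ) (v : X → F) :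
    ∀ y, level y < k → (x ^ k) v y = 0 := by
  induction k with
  | zero => intro y hy; omega
  | succ k ih =>
    intro y hy
    rw [pow_succ']
    exact hx k _ ih y (by omega)

theorem raise_N (i : ℤ) : Raise (N F i) := by
  intro l v hv z hz
  rcases z with m | ⟨_ | j, c⟩
  · rfl
  · rfl
  · rw [N_succ]
    split_ifs
    · apply hv; simp only [level] at hz ⊢; omega
    · rfl

theorem Raise.conj {x : E F} (hx : Raise x) (k l : ℤ) : Raise (R F k * x * R F l) := by
  intro n v hv z hz
  simp only [Module.End.mul_apply, R_apply]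
  refine hx n _ (fun y hy => ?_) _ (by rwa [level_rot])
  rw [R_apply]
  exact hv _ (by rwa [level_rot])

theorem FinJ.mono {J J' : ℕ} {x : E F} (hx : FinJ J x) (h : J ≤ J') : FinJ J' x :=
  ⟨fun v hv => hx.1 v (fun y hy => hv y (hy.trans h)), fun v y hy => hx.2 v y (by omega)⟩

theorem FinJ.zero (J : ℕ) : FinJ J (0 : E F) := ⟨fun _ _ => rfl, fun _ _ _ => rfl⟩

theorem FinJ.add {J : ℕ} {x y : E F} (hx : FinJ J x) (hy : FinJ J y) : FinJ J (x + y) :=
  ⟨fun v hv => by simp [hx.1 v hv, hy.1 v hv], fun v z hz => by simp [hx.2 v z hz, hy.2 v z hz]⟩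

theorem FinJ.smul {J : ℕ} {x : E F} (r : F) (hx : FinJ J x) : FinJ J (r • x) :=
  ⟨fun v hv => by simp [hx.1 v hv], fun v z hz => by simp [hx.2 v z hz]⟩

theorem FinJ.mul {J : ℕ} {x y : E F} (hx : FinJ J x) (hy : FinJ J y) : FinJ J (x * y) :=
  ⟨fun v hv => by simp [hy.1 v hv], fun _ z hz => hx.2 _ z hz⟩

theorem FinJ.mul_loc {J : ℕ} {x y : E F} (hx : FinJ J x) (hy : Loc y) : FinJ J (x * y) :=
  ⟨fun v hv => hx.1 _ ((hy J).1 v hv), fun _ z hz => hx.2 _ z hz⟩

theorem FinJ.loc_mul {J : ℕ} {x y : E F} (hx : FinJ J x) (hy : Loc y) : FinJ (J + 1) (y * x) :=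
  ⟨fun v hv => by simp [hx.1 v (fun z hz => hv z (by omega))],
    fun v z hz => (hy J).2 _ (hx.2 v) z hz⟩

theorem FinJ.conj {J : ℕ} {x : E F} (hx : FinJ J x) (k l : ℤ) : FinJ J (R F k * x * R F l) := by
  refine ⟨fun v hv => ?_, fun v z hz => ?_⟩
  · have : x (R F l v) = 0 := hx.1 _ (fun y hy => by
      rw [R_apply]; exact hv _ (by rwa [size_rot]))
    simp [this]
  · simp only [Module.End.mul_apply, R_apply]
    exact hx.2 _ _ (by rwa [size_rot])

theorem Loc.zero : Loc (0 : E F) := fun _ => ⟨fun _ _ _ _ => rfl, fun _ _ _ _ => rfl⟩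

theorem Loc.add {x y : E F} (hx : Loc x) (hy : Loc y) : Loc (x + y) := fun J =>
  ⟨fun v hv z hz => by simp [(hx J).1 v hv z hz, (hy J).1 v hv z hz],
    fun v hv z hz => by simp [(hx J).2 v hv z hz, (hy J).2 v hv z hz]⟩

theorem Loc.smul {x : E F} (r : F) (hx : Loc x) : Loc (r • x) := fun J =>
  ⟨fun v hv z hz => by simp [(hx J).1 v hv z hz], fun v hv z hz => by simp [(hx J).2 v hv z hz]⟩

theorem loc_N (i : ℤ) : Loc (N F i) := by
  intro J
  refine ⟨fun v hv z hz => ?_, fun v hv z hz => ?_⟩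
  all_goals
    rcases z with m | ⟨_ | j, c⟩
    · rfl
    · rfl
    · rw [N_succ]
      split_ifs
      · apply hv; simp only [size] at hz ⊢; omega
      · rfl

theorem NN_apply (i k : ℤ) (v : X → F) (j : ℕ) (c) (hj : (i - k).natAbs ≤ j) :
    N F i (N F k v) (.inr ⟨j + 1, c⟩) = 0 := by
  rw [N_succ]
  split_ifs with h
  swap
  · rfl
  rcases j with _ | j
  · rfl
  rw [N_succ, if_neg]
  intro h2
  rw [ZMod.intCast_eq_intCast_iff_dvd_sub] at h2
  obtain ⟨d, hd⟩ := h2
  push_cast at hd
  rcases le_or_gt 0 d with h0 | h0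
  · have : (0 : ℤ) ≤ (2 * ((j : ℤ) + 1) + 2) * d := by positivity
    omega
  · have : (2 * ((j : ℤ) + 1) + 2) * d ≤ (2 * ((j : ℤ) + 1) + 2) * (-1) :=
      mul_le_mul_of_nonneg_left (by omega) (by positivity)
    omega

theorem finJ_NN (i k : ℤ) : FinJ ((i - k).natAbs) (N F i * N F k) := by
  refine ⟨fun v hv => ?_, fun v z hz => ?_⟩
  · funext z
    rcases z with m | ⟨_ | j, c⟩
    · rfl
    · rfl
    · rcases le_or_gt (i - k).natAbs j with h | h
      · exact NN_apply i k v j c h
      · exact (loc_N i _).1 _ ((loc_N k _).1 v hv) (.inr ⟨j + 1, c⟩) (by simp only [size]; omega)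
  · rcases z with m | ⟨_ | j, c⟩
    · rfl
    · rfl
    · exact NN_apply i k v j c (by simp only [size] at hz; omega)

variable (F) in
/-- `NA a = ∑ a_i N_i`. -/
noncomputable def NA : (ℤ →₀ F) →ₗ[F] E F := Finsupp.linearCombination F (N F)

theorem NA_single (i : ℤ) (r : F) : NA F (Finsupp.single i r) = r • N F i := by
  simp [NA]

theorem raise_NA (a : ℤ →₀ F) : Raise (NA F a) := by
  induction a using Finsupp.induction_linear with
  | zero => simpa using Raise.zero
  | add a b ha hb => rw [map_add]; exact ha.add hb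
  | single i r => rw [NA_single]; exact (raise_N i).smul r

theorem loc_NA (a : ℤ →₀ F) : Loc (NA F a) := by
  induction a using Finsupp.induction_linear with
  | zero => simpa using Loc.zero
  | add a b ha hb => rw [map_add]; exact ha.add hb
  | single i r => rw [NA_single]; exact (loc_N i).smul r

theorem fin_NA_mul (a b : ℤ →₀ F) : ∃ J, FinJ J (NA F a * NA F b) := by
  induction a using Finsupp.induction_linear with
  | zero => exact ⟨0, by simpa using FinJ.zero 0⟩
  | add a a' ha ha' =>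
    obtain ⟨J, h⟩ := ha
    obtain ⟨J', h'⟩ := ha'
    exact ⟨max J J', by
      rw [map_add, add_mul]; exact (h.mono (le_max_left _ _)).add (h'.mono (le_max_right _ _))⟩
  | single i r =>
    induction b using Finsupp.induction_linear with
    | zero => exact ⟨0, by simpa using FinJ.zero 0⟩
    | add b b' hb hb' =>
      obtain ⟨J, h⟩ := hb
      obtain ⟨J', h'⟩ := hb'
      exact ⟨max J J', by
        rw [map_add, mul_add]; exact (h.mono (le_max_left _ _)).add (h'.mono (le_max_right _ _))⟩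
    | single k s =>
      refine ⟨(i - k).natAbs, ?_⟩
      rw [NA_single, NA_single, smul_mul_assoc, mul_smul_comm]
      exact ((finJ_NN i k).smul s).smul r

/-- Shift of the coefficient sequence. -/
noncomputable def sh (a : ℤ →₀ F) : ℤ →₀ F := Finsupp.mapDomain (· + 1) a

theorem conj_NA (a : ℤ →₀ F) : R F 1 * NA F a * R F (-1) = NA F (sh a) := by
  induction a using Finsupp.induction_linear with
  | zero => simp [sh]
  | add a b ha hb =>
    rw [map_add, mul_add, add_mul, ha, hb, ← map_add]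
    simp [sh, Finsupp.mapDomain_add]
  | single i r =>
    rw [NA_single, mul_smul_comm, smul_mul_assoc, conj_N, sh, Finsupp.mapDomain_single, NA_single]

/-- A finitary operator is determined by finitely many values. -/
theorem finite_finJ [Finite F] (J : ℕ) : {x : E F | FinJ J x}.Finite := by
  classical
  have : Finite {y : X // size y ≤ J} := (finite_size J).to_subtype
  let ext : ({y : X // size y ≤ J} → F) → X → F := fun w y => if h : size y ≤ J then w ⟨y, h⟩ else 0
  let Φ : E F → (({y : X // size y ≤ J} → F) → ({y : X // size y ≤ J} → F)) :=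
    fun x w y => x (ext w) y.1
  refine Set.Finite.of_finite_image (f := Φ) (Set.toFinite _) ?_
  intro x hx y hy hxy
  ext v z
  by_cases hz : size z ≤ J
  · have key : ∀ u : E F, FinJ J u → u v = u (ext (fun y => v y.1)) := by
      intro u hu
      have : u (v - ext (fun y => v y.1)) = 0 := hu.1 _ (fun y hy => by simp [ext, hy])
      rwa [map_sub, sub_eq_zero] at this
    rw [key x hx, key y hy]
    exact congrFun (congrFun hxy (fun y => v y.1)) ⟨z, hz⟩
  · rw [hx.2 v z (by omega), hy.2 v z (by omega)]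

end Pool.Agent.P.MP_8d62fb_al.H82
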