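import Pool.Agent.P.MP_8d62fb_al.H82.Ladder

/-! The operator `s = (1 + N 0) t` climbs the ladder: its orbit is linearly independent. -/

namespace Pool.Agent.P.MP_8d62fb_al.H82

variable (F : Type) [Field F]

def sOp : E F := (1 + N F 0) * R F 1

def x0 : X := .inr ⟨0, 0⟩

open Classical in
noncomputable def dl (x : X) : X → F := fun y => if y = x then 1 else 0

noncomputable def w (i : ℕ) : X → F := (sOp F ^ i) (dl F x0)

def tau : ℕ → ℕ
  | 0 => 0
  | j + 1 => tau j + (j + 1)

theorem sOp_inl (v : X → F) (m : ℕ) : sOp F v (.inl m) = v (.inl m) := by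
  simp [sOp, N_inl, R_apply, rot]

theorem sOp_ne (v : X → F) (j : ℕ) (c : ZMod (2 * j + 2)) (hc : c ≠ 0) :
    sOp F v (.inr ⟨j, c⟩) = v (.inr ⟨j, c - 1⟩) := by
  rcases j with _ | j
  · simp [sOp, N_zero, R_apply, rot, sub_eq_add_neg]
  · simp [sOp, N_succ, R_apply, rot, sub_eq_add_neg, hc]

theorem sOp_eq (v : X → F) (j : ℕ) :
    sOp F v (.inr ⟨j + 1, 0⟩) = v (.inr ⟨j + 1, -1⟩) + v (.inr ⟨j, (j : ZMod (2 * j + 2))⟩) := by
  simp [sOp, N_succ, R_apply, rot]

theorem sOp_dl (m : ℕ) : sOp F (dl F (.inl m)) = dl F (.inl m) := by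
  funext x
  rcases x with m' | ⟨j, c⟩
  · exact sOp_inl F _ _
  · by_cases hc : c = 0
    · subst hc
      rcases j with _ | j
      · simp [sOp, N_zero, R_apply, rot, dl]
      · rw [sOp_eq]; simp [dl]
    · rw [sOp_ne F _ _ _ hc]; simp [dl]

theorem val_sub_one (j : ℕ) (c : ZMod (2 * j + 2)) (hc : c ≠ 0) : (c - 1).val + 1 = c.val := by
  have h1 : (1 : ZMod (2 * j + 2)).val = 1 := by
    have : Fact (1 < 2 * j + 2) := ⟨by omega⟩
    exact ZMod.val_one _
  have h2 : 0 < c.val := ZMod.val_pos.2 hc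
  rw [ZMod.val_sub (by omega), h1]
  omega

theorem w_spec (i : ℕ) : ∀ (j : ℕ) (c : ZMod (2 * j + 2)),
    (i < tau j + c.val → w F i (.inr ⟨j, c⟩) = 0) ∧
      (i = tau j + c.val → c.val ≤ j → w F i (.inr ⟨j, c⟩) = 1) := by
  induction i with
  | zero =>
    intro j c
    refine ⟨fun h => ?_, fun h _ => ?_⟩
    · simp only [w, pow_zero, Module.End.one_apply, dl, x0]
      rw [if_neg]
      intro h2
      simp only [Sum.inr.injEq] at h2
      cases h2
      simp [tau] at h
    · rcases j with _ | j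
      · have : c = 0 := (ZMod.val_eq_zero c).1 (by omega)
        subst this
        simp [w, dl, x0]
      · simp only [tau] at h; omega
  | succ i ih =>
    intro j c
    have hw : w F (i + 1) = sOp F (w F i) := by simp only [w, pow_succ', Module.End.mul_apply]
    rw [hw]
    by_cases hc : c = 0
    · subst hc
      rcases j with _ | j
      · simp [tau]
      · rw [sOp_eq]
        have e1 : ((j : ℕ) : ZMod (2 * j + 2)).val = j := ZMod.val_cast_of_lt (by omega)
        have e2 : 0 < (-1 : ZMod (2 * (j + 1) + 2)).val := by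
          have : Fact (1 < 2 * (j + 1) + 2) := ⟨by omega⟩
          exact ZMod.val_pos.2 (neg_ne_zero.2 one_ne_zero)
        have h1 := ih (j + 1) (-1)
        have h2 := ih j (j : ZMod (2 * j + 2))
        rw [e1] at h2
        simp only [ZMod.val_zero, add_zero, tau] at h1 ⊢
        refine ⟨fun h => ?_, fun h _ => ?_⟩
        · rw [h1.1 (by omega), h2.1 (by omega), add_zero]
        · rw [h1.1 (by omega), h2.2 (by omega) le_rfl, zero_add]
    · rw [sOp_ne F _ _ _ hc]
      have e := val_sub_one j c hc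
      have h1 := ih j (c - 1)
      exact ⟨fun h => h1.1 (by omega), fun h h' => h1.2 (by omega) (by omega)⟩

theorem exists_tau (i : ℕ) : ∃ j c, c ≤ j ∧ i = tau j + c := by
  induction i with
  | zero => exact ⟨0, 0, le_rfl, rfl⟩
  | succ i ih =>
    obtain ⟨j, c, hc, rfl⟩ := ih
    rcases hc.lt_or_eq with h | rfl
    · exact ⟨j, c + 1, h, rfl⟩
    · exact ⟨c + 1, 0, by omega, by simp [tau, add_assoc]⟩

theorem w_indep (n : ℕ) (a : ℕ → F) (h : ∑ i ∈ Finset.range n, a i • w F i = 0) :
    ∀ i < n, a i = 0 := by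
  induction n with
  | zero => intro i hi; omega
  | succ n ih =>
    obtain ⟨j, c, hc, hn⟩ := exists_tau n
    have e1 : ((c : ℕ) : ZMod (2 * j + 2)).val = c := ZMod.val_cast_of_lt (by omega)
    have h0 : a n = 0 := by
      have := congrFun h (.inr ⟨j, (c : ZMod (2 * j + 2))⟩)
      rw [Finset.sum_range_succ, Pi.add_apply, Finset.sum_apply, Finset.sum_eq_zero] at this
      · rw [Pi.smul_apply, (w_spec F n j c).2 (by omega) (by omega)] at this
        simpa using this
      · intro i hi
        rw [Finset.mem_range] at hi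
        rw [Pi.smul_apply, (w_spec F i j c).1 (by omega), smul_zero]
    rw [Finset.sum_range_succ, h0, zero_smul, add_zero] at h
    intro i hi
    rcases (Nat.lt_succ_iff.1 hi).lt_or_eq with h1 | rfl
    · exact ih h i h1
    · exact h0

variable {F}

/-- The transvection part: `v ↦ (∑ c_m v(*_m)) δ_{x0}`. -/
noncomputable def eps {k : ℕ} (c : Fin k → F) : E F where
  toFun v := (∑ m, c m * v (.inl m)) • dl F x0
  map_add' v v' := by simp [mul_add, Finset.sum_add_distrib, add_smul]
  map_smul' r v := by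
    simp only [Pi.smul_apply, smul_eq_mul, RingHom.id_apply, smul_smul, Finset.mul_sum]
    congr 2
    funext m
    ring

theorem eps_apply {k : ℕ} (c : Fin k → F) (v : X → F) :
    eps c v = (∑ m, c m * v (.inl m)) • dl F x0 := rfl

theorem eps_dl {k : ℕ} (c : Fin k → F) (m : Fin k) : eps c (dl F (.inl m)) = c m • dl F x0 := by
  rw [eps_apply, Finset.sum_eq_single m]
  · simp [dl]
  · intro b _ hb
    simp [dl, Fin.val_inj, hb]
  · simp

theorem raise_eps {k : ℕ} (c : Fin k → F) : Raise (eps c) := by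
  intro l v hv y hy
  rw [eps_apply]
  rcases l with _ | l
  · have : y ≠ x0 := by rintro rfl; simp [x0, level] at hy
    simp [dl, this]
  · rw [Finset.sum_eq_zero (fun m _ => by rw [hv _ (by simp [level]), mul_zero])]
    simp

theorem finJ_eps {k : ℕ} (c : Fin k → F) : FinJ k (eps c) := by
  refine ⟨fun v hv => ?_, fun v y hy => ?_⟩
  · rw [eps_apply, Finset.sum_eq_zero (fun m _ => by rw [hv _ (by simp [size]), mul_zero])]
    simp
  · have : y ≠ x0 := by rintro rfl; simp [x0, size] at hy
    simp [eps_apply, dl, this]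

/-- The products `∏ (1 + eps c_i) s`. -/
noncomputable def Qp {k : ℕ} (c : ℕ → Fin k → F) : ℕ → E F
  | 0 => 1
  | n + 1 => Qp c n * ((1 + eps (c n)) * sOp F)

theorem Qp_top {k : ℕ} (c : ℕ → Fin k → F) (n : ℕ) :
    ∀ v : X → F, (∀ m, v (.inl m) = 0) → Qp c n v = (sOp F ^ n) v := by
  induction n with
  | zero => intro v _; rfl
  | succ n ih =>
    intro v hv
    have h1 : ∀ m, sOp F v (.inl m) = 0 := fun m => by rw [sOp_inl, hv]
    have h2 : eps (c n) (sOp F v) = 0 := by simp [eps_apply, h1]
    simp only [Qp, Module.End.mul_apply, LinearMap.add_apply, Module.End.one_apply, h2, add_zero,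
      pow_succ]
    exact ih _ h1

theorem Qp_dl {k : ℕ} (c : ℕ → Fin k → F) (n : ℕ) (m : Fin k) :
    Qp c n (dl F (.inl m)) = dl F (.inl m) + ∑ i ∈ Finset.range n, c i m • w F i := by
  induction n with
  | zero => simp [Qp]
  | succ n ih =>
    simp only [Qp, Module.End.mul_apply, LinearMap.add_apply, Module.End.one_apply, sOp_dl, eps_dl,
      map_add, map_smul, ih, Finset.sum_range_succ]
    rw [Qp_top c n _ (fun m => by simp [dl, x0]), add_assoc]
    rfl

theorem Qp_inj {k : ℕ} (c c' : ℕ → Fin k → F) (n : ℕ) (h : Qp c n = Qp c' n) :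
    ∀ i < n, c i = c' i := by
  intro i hi
  funext m
  have h1 := Qp_dl c n m
  rw [h, Qp_dl, add_right_inj] at h1
  have := w_indep F n (fun i => c' i m - c i m) (by
    simp only [sub_smul, Finset.sum_sub_distrib, h1, sub_self]) i hi
  exact (sub_eq_zero.1 this).symm

end Pool.Agent.P.MP_8d62fb_al.H82
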